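import Mathlib

/-!
# Large dissociated subsets of finite sets of reals: `f(n) >= log n - log log n` (base 2)

Method: combs in the 2-adic tree. Among more than `2 ^ t` integers there are `t + 2` integers with
no balanced signed relation (two elements of different classes modulo a power of two at each
branching); inside one odd class modulo `2 ^ l` every signed relation with fewer than `2 ^ l`
terms is balanced.
-/

set_option autoImplicit false

namespace Pool.Agent.Results.MP_2d6ea7_co.LogLogBound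

open Finset

/-- coefficients `-1, 0, 1` -/
def Sg (ε : ℤ → ℤ) : Prop := ∀ x, ε x = -1 ∨ ε x = 0 ∨ ε x = 1

/-- no signed relation -/
def NR (B : Finset ℤ) : Prop :=
  ∀ ε : ℤ → ℤ, Sg ε → ∑ b ∈ B, ε b * b = 0 → ∀ b ∈ B, ε b = 0

/-- no balanced signed relation -/
def ANR (B : Finset ℤ) : Prop :=
  ∀ ε : ℤ → ℤ, Sg ε → ∑ b ∈ B, ε b = 0 → ∑ b ∈ B, ε b * b = 0 → ∀ b ∈ B, ε b = 0

theorem anr_of_card_le_one (x : ℤ) : ANR {x} := by
  intro ε _ h _ b hb
  rw [sum_singleton] at h
  rw [mem_singleton] at hb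
  rw [hb, h]

/-- adding an element of a different class -/
theorem anr_insert {B : Finset ℤ} (hB : ANR B) {r c : ℤ} {m : ℕ}
    (h1 : ∀ b ∈ B, b ≡ r [ZMOD 2 ^ m]) (h2 : ¬ c ≡ r [ZMOD 2 ^ m]) (hc : c ∉ B) :
    ANR (insert c B) := by
  intro ε hε h h'
  rw [sum_insert hc] at h h'
  have h3 : ∑ b ∈ B, ε b * b ≡ ∑ b ∈ B, ε b * r [ZMOD 2 ^ m] := by
    refine Int.ModEq.sum fun b hb => ?_
    exact (h1 b hb).mul_left _
  rw [← Finset.sum_mul] at h3
  have h4 : ε c = 0 := by
    have e1 : ∑ b ∈ B, ε b = - ε c := by linarith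
    have e2 : ∑ b ∈ B, ε b * b = - (ε c * c) := by linarith
    rw [e1, e2] at h3
    have h5 : ε c * c ≡ ε c * r [ZMOD 2 ^ m] := by
      have := h3.neg
      simpa using this
    rcases hε c with h | h | h
    · exfalso
      rw [h] at h5
      apply h2
      have := h5.neg
      simpa using this
    · exact h
    · exfalso
      rw [h] at h5
      apply h2
      simpa using h5
  rw [h4, zero_add] at h
  rw [h4, zero_mul, zero_add] at h'
  intro b hb
  rw [mem_insert] at hb
  rcases hb with rfl | hb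
  · exact h4
  · exact hB ε hε h h' b hb

/-- **combs** -/
theorem comb (t : ℕ) : ∀ K : Finset ℤ, 2 ^ t < K.card → ∃ B ⊆ K, B.card = t + 2 ∧ ANR B := by
  induction t with
  | zero =>
    intro K hK
    rw [pow_zero, Finset.one_lt_card] at hK
    obtain ⟨x, hx, y, hy, hxy⟩ := hK
    refine ⟨{x, y}, ?_, Finset.card_pair hxy, ?_⟩
    · intro z hz
      rw [mem_insert, mem_singleton] at hz
      rcases hz with rfl | rfl
      · exact hx
      · exact hy
    · intro ε _ h h'
      rw [sum_pair hxy] at h h'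
      have e1 : ε x = - ε y := by linarith
      rw [e1] at h'
      have e2 : ε y * (y - x) = 0 := by linarith
      rcases mul_eq_zero.1 e2 with e | e
      · intro b hb
        rw [mem_insert, mem_singleton] at hb
        rcases hb with rfl | rfl
        · rw [e1, e, neg_zero]
        · exact e
      · exact absurd (by linarith) hxy
  | succ t ih =>
    intro K hK
    have hK1 : 1 < K.card := lt_of_le_of_lt (Nat.one_le_two_pow) hK
    obtain ⟨x, hx, y, hy, hxy⟩ := Finset.one_lt_card.1 hK1
    -- least level at which the set is not in one class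
    have hex : ∃ m : ℕ, ∃ a ∈ K, ∃ b ∈ K, ¬ a ≡ b [ZMOD 2 ^ m] := by
      obtain ⟨m, hm⟩ : ∃ m : ℕ, |x - y| < 2 ^ m := by
        obtain ⟨m, hm⟩ := pow_unbounded_of_one_lt (|x - y|) (by norm_num : (1 : ℤ) < 2)
        exact ⟨m, hm⟩
      refine ⟨m, x, hx, y, hy, fun h => ?_⟩
      have h1 : (2 : ℤ) ^ m ∣ x - y := (Int.modEq_iff_dvd.1 h.symm)
      have h2 := Int.eq_zero_of_abs_lt_dvd h1 hm
      exact hxy (by linarith)
    classical
    obtain ⟨m, ⟨a, ha, b, hb, hab⟩, hmin⟩ : ∃ m : ℕ, (∃ a ∈ K, ∃ b ∈ K, ¬ a ≡ b [ZMOD 2 ^ m]) ∧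
        ∀ m' < m, ∀ a ∈ K, ∀ b ∈ K, a ≡ b [ZMOD 2 ^ m'] := by
      refine ⟨Nat.find hex, Nat.find_spec hex, fun m' hm' a ha b hb => ?_⟩
      have := Nat.find_min hex hm'
      push Not at this
      exact this a ha b hb
    have hm0 : m ≠ 0 := by
      rintro rfl
      apply hab
      rw [pow_zero]
      exact Int.modEq_one
    obtain ⟨q, rfl⟩ := Nat.exists_eq_succ_of_ne_zero hm0
    -- two elements outside the class of `a` are congruent
    have htwo : ∀ u ∈ K, ∀ v ∈ K, ¬ u ≡ a [ZMOD 2 ^ (q + 1)] → ¬ v ≡ a [ZMOD 2 ^ (q + 1)] →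
        u ≡ v [ZMOD 2 ^ (q + 1)] := by
      intro u hu v hv h1 h2
      have e1 := (Int.modEq_iff_dvd.1 (hmin q (Nat.lt_succ_self q) a ha u hu))
      have e2 := (Int.modEq_iff_dvd.1 (hmin q (Nat.lt_succ_self q) a ha v hv))
      obtain ⟨k1, hk1⟩ := e1
      obtain ⟨k2, hk2⟩ := e2
      have o1 : Odd k1 := by
        rw [← Int.not_even_iff_odd]
        rintro ⟨j, hj⟩
        apply h1
        apply Int.ModEq.symm
        rw [Int.modEq_iff_dvd]
        exact ⟨j, by rw [hk1, hj]; ring⟩
      have o2 : Odd k2 := by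
        rw [← Int.not_even_iff_odd]
        rintro ⟨j, hj⟩
        apply h2
        apply Int.ModEq.symm
        rw [Int.modEq_iff_dvd]
        exact ⟨j, by rw [hk2, hj]; ring⟩
      obtain ⟨j, hj⟩ := o2.sub_odd o1
      rw [Int.modEq_iff_dvd]
      refine ⟨j, ?_⟩
      have : v - u = 2 ^ q * (k2 - k1) := by linarith
      rw [this, hj]
      ring
    -- the two classes
    set K1 := K.filter (fun u => u ≡ a [ZMOD 2 ^ (q + 1)]) with hK1d
    set K2 := K.filter (fun u => ¬ u ≡ a [ZMOD 2 ^ (q + 1)]) with hK2d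
    have hsum : K1.card + K2.card = K.card := Finset.card_filter_add_card_filter_not _
    have hor : 2 ^ t < K1.card ∨ 2 ^ t < K2.card := by
      rw [pow_succ] at hK
      omega
    rcases hor with h | h
    · obtain ⟨B, hB, hBc, hBa⟩ := ih K1 h
      have hbB : b ∉ B := fun hbB => hab ((mem_filter.1 (hB hbB)).2.symm)
      refine ⟨insert b B, ?_, ?_, ?_⟩
      · intro z hz
        rw [mem_insert] at hz
        rcases hz with rfl | hz
        · exact hb
        · exact (mem_filter.1 (hB hz)).1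
      · rw [card_insert_of_notMem hbB, hBc]
      · exact anr_insert hBa (fun z hz => (mem_filter.1 (hB hz)).2) (fun h => hab h.symm) hbB
    · obtain ⟨B, hB, hBc, hBa⟩ := ih K2 h
      have haB : a ∉ B := fun haB => (mem_filter.1 (hB haB)).2 (Int.ModEq.refl _)
      refine ⟨insert a B, ?_, ?_, ?_⟩
      · intro z hz
        rw [mem_insert] at hz
        rcases hz with rfl | hz
        · exact ha
        · exact (mem_filter.1 (hB hz)).1
      · rw [card_insert_of_notMem haB, hBc]
      · refine anr_insert (r := b) hBa (fun z hz => ?_) hab haB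
        have hz' := mem_filter.1 (hB hz)
        exact htwo z hz'.1 b hb hz'.2 (fun h => hab h.symm)

/-- balanced is enough in one odd class -/
theorem nr_of_anr {B : Finset ℤ} (hB : ANR B) {r : ℤ} {l : ℕ} (hr : Odd r)
    (h1 : ∀ b ∈ B, b ≡ r [ZMOD 2 ^ l]) (h2 : B.card < 2 ^ l) : NR B := by
  intro ε hε h
  have h3 : ∑ b ∈ B, ε b * b ≡ ∑ b ∈ B, ε b * r [ZMOD 2 ^ l] := by
    refine Int.ModEq.sum fun b hb => ?_
    exact (h1 b hb).mul_left _
  rw [← Finset.sum_mul, h] at h3
  have h4 : (2 : ℤ) ^ l ∣ (∑ b ∈ B, ε b) * r := by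
    have := Int.modEq_iff_dvd.1 h3
    rwa [sub_zero] at this
  have h5 : (2 : ℤ) ^ l ∣ ∑ b ∈ B, ε b := by
    refine (IsCoprime.dvd_of_dvd_mul_right ?_ h4)
    exact (Int.isCoprime_iff_gcd_eq_one.2 (by
      have : IsCoprime (2 : ℤ) r := (Int.isCoprime_two_left).2 hr
      exact Int.isCoprime_iff_gcd_eq_one.1 this.pow_left))
  have h6 : |∑ b ∈ B, ε b| < 2 ^ l := by
    calc |∑ b ∈ B, ε b| ≤ ∑ b ∈ B, |ε b| := Finset.abs_sum_le_sum_abs _ _
      _ ≤ ∑ b ∈ B, 1 := by
          refine Finset.sum_le_sum fun b _ => ?_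
          rcases hε b with h | h | h <;> rw [h] <;> norm_num
      _ = B.card := by simp
      _ < 2 ^ l := by exact_mod_cast h2
  exact hB ε hε (Int.eq_zero_of_abs_lt_dvd h5 h6) h


/-- **odd sets** -/
theorem odd_case {C : Finset ℤ} (hodd : ∀ x ∈ C, Odd x) (hneg : ∀ x ∈ C, -x ∉ C) {l t : ℕ}
    (hl : 2 ≤ l) (hC : 2 ^ (l - 2) * 2 ^ t < C.card) (ht : t + 2 < 2 ^ l) :
    ∃ B ⊆ C, B.card = t + 2 ∧ NR B := by
  classical
  obtain ⟨l, rfl⟩ := Nat.exists_eq_add_of_le hl
  rw [Nat.add_sub_cancel_left] at hC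
  -- normalisation modulo 4
  set nm : ℤ → ℤ := fun x => if x % 4 = 1 then x else -x with hnm
  have hnm4 : ∀ x, Odd x → nm x % 4 = 1 := by
    intro x hx
    obtain ⟨k, hk⟩ := hx
    simp only [hnm]
    split_ifs with h
    · exact h
    · omega
  have hinj : Set.InjOn nm (C : Set ℤ) := by
    intro x hx y hy hxy
    simp only [hnm] at hxy
    split_ifs at hxy with h1 h2 h2
    · exact hxy
    · exact absurd (mem_coe.1 hx) (by rw [hxy]; exact hneg y hy)
    · exact absurd (mem_coe.1 hy) (by rw [← hxy]; exact hneg x hx)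
    · exact neg_injective hxy
  set C' := C.image nm with hC'
  have hC'c : C'.card = C.card := Finset.card_image_of_injOn hinj
  -- pigeonhole
  have hmaps : ∀ y ∈ C', y % 2 ^ (2 + l) ∈ (range (2 ^ l)).image (fun j : ℕ => (4 * j + 1 : ℤ)) := by
    intro y hy
    obtain ⟨x, hx, rfl⟩ := mem_image.1 hy
    have h4 := hnm4 x (hodd x hx)
    set z := nm x with hz
    have hpow : (2 : ℤ) ^ (2 + l) = 4 * 2 ^ l := by rw [pow_add]; norm_num
    have hpos : (0 : ℤ) < 2 ^ l := by positivity
    have h0 : 0 ≤ z % 2 ^ (2 + l) := Int.emod_nonneg _ (by positivity)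
    have h1 : z % 2 ^ (2 + l) < 2 ^ (2 + l) := Int.emod_lt_of_pos _ (by positivity)
    have h2 : z % 2 ^ (2 + l) % 4 = 1 := by
      rw [Int.emod_emod_of_dvd _ (by rw [hpow]; exact dvd_mul_right _ _), h4]
    rw [mem_image]
    refine ⟨((z % 2 ^ (2 + l)) / 4).toNat, ?_, ?_⟩
    · rw [mem_range]
      have : (z % 2 ^ (2 + l)) / 4 < 2 ^ l := by
        rw [hpow] at h1 ⊢
        omega
      have h5 : ((z % 2 ^ (2 + l)) / 4).toNat < ((2 : ℤ) ^ l).toNat := by
        rw [Int.toNat_lt_toNat hpos]
        exact this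
      have h6 : ((2 : ℤ) ^ l).toNat = 2 ^ l := by
        have : ((2 : ℤ) ^ l) = ((2 ^ l : ℕ) : ℤ) := by push_cast; rfl
        rw [this, Int.toNat_natCast]
      rwa [h6] at h5
    · have : 0 ≤ (z % 2 ^ (2 + l)) / 4 := by omega
      rw [Int.toNat_of_nonneg this]
      omega
  have hcard : ((range (2 ^ l)).image (fun j : ℕ => (4 * j + 1 : ℤ))).card * 2 ^ t < C'.card := by
    rw [hC'c]
    refine lt_of_le_of_lt (Nat.mul_le_mul_right _ ?_) hC
    exact Finset.card_image_le.trans (by rw [card_range])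
  obtain ⟨r, hr, hrK⟩ := Finset.exists_lt_card_fiber_of_mul_lt_card_of_maps_to hmaps hcard
  obtain ⟨B', hB', hB'c, hB'a⟩ := comb t _ hrK
  have hrodd : Odd r := by
    obtain ⟨j, _, rfl⟩ := mem_image.1 hr
    exact ⟨2 * j, by ring⟩
  have hB'1 : ∀ b ∈ B', b ∈ C' ∧ b % 2 ^ (2 + l) = r := fun b hb => mem_filter.1 (hB' hb)
  have hr' : r % 2 ^ (2 + l) = r := by
    have hne : B'.Nonempty := by
      rw [← card_pos, hB'c]; omega
    obtain ⟨b, hb⟩ := hne
    rw [← (hB'1 b hb).2, Int.emod_emod]
  have hNR : NR B' := by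
    refine nr_of_anr hB'a hrodd (l := 2 + l) (fun b hb => ?_) (by rw [hB'c]; exact ht)
    show b % 2 ^ (2 + l) = r % 2 ^ (2 + l)
    rw [hr', (hB'1 b hb).2]
  -- back to C
  set h : ℤ → ℤ := fun y => if y ∈ C then y else -y with hh
  have hmem : ∀ y ∈ B', h y ∈ C := by
    intro y hy
    obtain ⟨x, hx, hxy⟩ := mem_image.1 (hB'1 y hy).1
    simp only [hh]
    split_ifs with h1
    · exact h1
    · simp only [hnm] at hxy
      split_ifs at hxy with h2
      · exact absurd (hxy ▸ hx) h1
      · rw [← hxy, neg_neg]; exact hx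
  have hB4 : ∀ y ∈ B', y % 4 = 1 := by
    intro y hy
    obtain ⟨x, hx, hxy⟩ := mem_image.1 (hB'1 y hy).1
    rw [← hxy]
    exact hnm4 x (hodd x hx)
  have hinj' : Set.InjOn h (B' : Set ℤ) := by
    intro x hx y hy hxy
    have h1 := hB4 x hx
    have h2 := hB4 y hy
    simp only [hh] at hxy
    split_ifs at hxy <;> omega
  refine ⟨B'.image h, ?_, ?_, ?_⟩
  · intro z hz
    obtain ⟨y, hy, rfl⟩ := mem_image.1 hz
    exact hmem y hy
  · rw [Finset.card_image_of_injOn hinj', hB'c]
  · intro ε hε hsum b hb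
    rw [Finset.sum_image hinj'] at hsum
    have hε' : Sg (fun y => if y ∈ C then ε y else - ε (-y)) := by
      intro y
      simp only
      split_ifs
      · exact hε y
      · rcases hε (-y) with h | h | h <;> rw [h] <;> norm_num
    have hs : ∑ y ∈ B', (fun y => if y ∈ C then ε y else - ε (-y)) y * y = 0 := by
      rw [← hsum]
      refine Finset.sum_congr rfl fun y _ => ?_
      simp only [hh]
      split_ifs <;> ring
    have h0 := hNR _ hε' hs
    obtain ⟨y, hy, rfl⟩ := mem_image.1 hb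
    have := h0 y hy
    simp only [hh] at this ⊢
    split_ifs at this ⊢ with h1
    · exact this
    · linarith

theorem nr_insert_odd {B : Finset ℤ} (hB : NR B) (he : ∀ b ∈ B, Even b) {c : ℤ} (hc : Odd c) :
    NR (insert c B) := by
  have hcB : c ∉ B := fun h => (Int.not_even_iff_odd.2 hc) (he c h)
  intro ε hε h
  rw [sum_insert hcB] at h
  have h1 : Even (∑ b ∈ B, ε b * b) := by
    rw [even_iff_two_dvd]
    exact Finset.dvd_sum fun b hb => (even_iff_two_dvd.1 (he b hb)).mul_left _
  have h2 : Even (ε c * c) := by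
    have : ε c * c = - ∑ b ∈ B, ε b * b := by linarith
    rw [this]; exact h1.neg
  have h3 : ε c = 0 := by
    rcases hε c with h | h | h
    · exfalso
      rw [h] at h2
      have : Even c := by simpa using h2
      exact (Int.not_even_iff_odd.2 hc) this
    · exact h
    · exfalso
      rw [h, one_mul] at h2
      exact (Int.not_even_iff_odd.2 hc) h2
  rw [h3, zero_mul, zero_add] at h
  intro b hb
  rw [mem_insert] at hb
  rcases hb with rfl | hb
  · exact h3
  · exact hB ε hε h b hb

/-- **integer sets** -/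
theorem int_case (N : ℕ) : ∀ (s : ℕ) (P : Finset ℤ), ∑ x ∈ P, x.natAbs ≤ N → (0 : ℤ) ∉ P →
    (∀ x ∈ P, -x ∉ P) → s * 2 ^ s < 2 * P.card → ∃ B ⊆ P, B.card = s + 1 ∧ NR B := by
  classical
  induction N with
  | zero =>
    intro s P hN h0 _ hc
    exfalso
    have hP : P.Nonempty := by
      rw [← card_pos]; omega
    obtain ⟨x, hx⟩ := hP
    have h1 : x.natAbs ≤ ∑ x ∈ P, x.natAbs := Finset.single_le_sum (fun _ _ => Nat.zero_le _) hx
    have h2 : x.natAbs = 0 := by omega
    rw [Int.natAbs_eq_zero] at h2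
    exact h0 (h2 ▸ hx)
  | succ N ih =>
    intro s P hN h0 hneg hc
    have hP : P.Nonempty := by
      rw [← card_pos]; omega
    rcases s with _ | s
    · obtain ⟨x, hx⟩ := hP
      refine ⟨{x}, by simpa using hx, by simp, ?_⟩
      intro ε _ h b hb
      rw [sum_singleton] at h
      rw [mem_singleton] at hb
      subst hb
      rcases mul_eq_zero.1 h with h | h
      · exact h
      · exact absurd (h ▸ hx) h0
    by_cases hall : ∀ x ∈ P, Even x
    · -- halve
      have hhalf : ∀ x ∈ P, 2 * (x / 2) = x := by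
        intro x hx
        obtain ⟨k, hk⟩ := hall x hx
        omega
      have hinj : Set.InjOn (fun x : ℤ => x / 2) (P : Set ℤ) := by
        intro x hx y hy hxy
        have h1 := hhalf x hx
        have h2 := hhalf y hy
        simp only at hxy
        rw [← h1, ← h2, hxy]
      obtain ⟨B, hB, hBc, hBn⟩ := ih (s + 1) (P.image (fun x => x / 2)) (by
          rw [Finset.sum_image hinj]
          have hlt : ∑ x ∈ P, (x / 2).natAbs < ∑ x ∈ P, x.natAbs := by
            refine Finset.sum_lt_sum_of_nonempty hP fun x hx => ?_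
            have h1 := hhalf x hx
            have h2 : x ≠ 0 := fun h => h0 (h ▸ hx)
            omega
          omega) (by
          intro h
          obtain ⟨x, hx, hx0⟩ := mem_image.1 h
          have h1 := hhalf x hx
          have : x = 0 := by omega
          exact h0 (this ▸ hx)) (by
          intro y hy hy'
          obtain ⟨x, hx, hxy⟩ := mem_image.1 hy
          obtain ⟨z, hz, hzy⟩ := mem_image.1 hy'
          have h1 := hhalf x hx
          have h2 := hhalf z hz
          have : z = -x := by omega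
          exact hneg x hx (this ▸ hz)) (by
          rw [Finset.card_image_of_injOn hinj]; exact hc)
      have hinj2 : Set.InjOn (fun x : ℤ => 2 * x) (B : Set ℤ) := by
        intro x _ y _ hxy
        simp only at hxy
        omega
      refine ⟨B.image (fun x => 2 * x), ?_, ?_, ?_⟩
      · intro z hz
        obtain ⟨y, hy, rfl⟩ := mem_image.1 hz
        obtain ⟨x, hx, rfl⟩ := mem_image.1 (hB hy)
        rw [hhalf x hx]
        exact hx
      · rw [Finset.card_image_of_injOn hinj2, hBc]
      · intro ε hε h b hb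
        rw [Finset.sum_image hinj2] at h
        have h1 : ∑ y ∈ B, (fun y => ε (2 * y)) y * y = 0 := by
          have : ∑ y ∈ B, ε (2 * y) * (2 * y) = 2 * ∑ y ∈ B, ε (2 * y) * y := by
            rw [Finset.mul_sum]
            exact Finset.sum_congr rfl fun y _ => by ring
          rw [this] at h
          simp only
          omega
        obtain ⟨y, hy, rfl⟩ := mem_image.1 hb
        exact hBn _ (fun y => hε (2 * y)) h1 y hy
    · push Not at hall
      obtain ⟨x0, hx0, hodd0⟩ := hall
      have hodd0' : Odd x0 := Int.not_even_iff_odd.1 hodd0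
      set Pe := P.filter (fun x => Even x) with hPe
      set Po := P.filter (fun x => ¬ Even x) with hPo
      have hsum : Pe.card + Po.card = P.card := Finset.card_filter_add_card_filter_not _
      by_cases hc1 : s * 2 ^ s < 2 * Pe.card
      · obtain ⟨B, hB, hBc, hBn⟩ := ih s Pe (by
            have h1 : Pe ⊆ P.erase x0 := by
              intro z hz
              have hz' := mem_filter.1 hz
              rw [mem_erase]
              refine ⟨fun h => ?_, hz'.1⟩
              rw [h] at hz'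
              exact hodd0 hz'.2
            have h2 : ∑ x ∈ Pe, x.natAbs ≤ ∑ x ∈ P.erase x0, x.natAbs :=
              Finset.sum_le_sum_of_subset h1
            have h3 := Finset.sum_erase_add P (fun x => x.natAbs) hx0
            have h4 : 0 < x0.natAbs := by
              rw [Int.natAbs_pos]
              rintro rfl
              exact h0 hx0
            omega) (fun h => h0 (mem_filter.1 h).1)
            (fun x hx hx' => hneg x (mem_filter.1 hx).1 (mem_filter.1 hx').1) hc1
        have hBe : ∀ b ∈ B, Even b := fun b hb => (mem_filter.1 (hB hb)).2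
        have hx0B : x0 ∉ B := fun h => hodd0 (hBe _ h)
        refine ⟨insert x0 B, ?_, ?_, nr_insert_odd hBn hBe hodd0'⟩
        · intro z hz
          rw [mem_insert] at hz
          rcases hz with rfl | hz
          · exact hx0
          · exact (mem_filter.1 (hB hz)).1
        · rw [card_insert_of_notMem hx0B, hBc]
      · -- the odd part is large
        set q := Nat.log 2 (s + 2) with hq
        have hq1 : 1 ≤ q := by
          rw [hq]
          exact (Nat.le_log_iff_pow_le (by norm_num) (by omega)).2 (by omega)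
        have hq2 : 2 ^ q ≤ s + 2 := Nat.pow_log_le_self 2 (by omega)
        have hq3 : s + 2 < 2 ^ (q + 1) := Nat.lt_pow_succ_log_self (by norm_num) _
        obtain ⟨B, hB, hBc, hBn⟩ := odd_case (C := Po) (l := q + 1) (t := s)
          (fun x hx => Int.not_even_iff_odd.1 (mem_filter.1 hx).2)
          (fun x hx hx' => hneg x (mem_filter.1 hx).1 (mem_filter.1 hx').1)
          (by omega) (by
            have e1 : q + 1 - 2 = q - 1 := by omega
            rw [e1]
            have e2 : 2 ^ q = 2 ^ (q - 1) * 2 := by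
              rw [← pow_succ]; congr 1; omega
            rw [e2] at hq2
            have h2s : 0 < 2 ^ s := by positivity
            rw [pow_succ] at hc
            -- (s+1) 2^s 2 < 2 |P| ; 2 |Pe| <= s 2^s
            have hPo4 : (s + 2) * 2 ^ s < 2 * Po.card := by
              have : (s + 1) * (2 ^ s * 2) = s * 2 ^ s + (s + 2) * 2 ^ s := by ring
              omega
            have h3 : (2 ^ (q - 1) * 2) * 2 ^ s ≤ (s + 2) * 2 ^ s := Nat.mul_le_mul_right _ hq2
            have h4 : (2 ^ (q - 1) * 2) * 2 ^ s = 2 * (2 ^ (q - 1) * 2 ^ s) := by ring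
            omega) hq3
        exact ⟨B, hB.trans (filter_subset _ _), by rw [hBc], hBn⟩


/-- **real sets** -/
theorem real_case (A : Finset ℝ) (s : ℕ) (h0 : (0 : ℝ) ∉ A) (hneg : ∀ x ∈ A, -x ∉ A)
    (hc : s * 2 ^ s < 2 * A.card) :
    ∃ B ⊆ A, B.card = s + 1 ∧ AddDissociated (B : Set ℝ) := by
  classical
  -- a rational linear functional without unwanted zeros
  obtain ⟨f, hf⟩ : ∃ f : Module.Dual ℚ ℝ, ∀ v ∈ (A ∪ ((A ×ˢ A).image (fun p => p.1 - p.2) ∪
      (A ×ˢ A).image (fun p => p.1 + p.2))).filter (fun v => v ≠ 0), f v ≠ 0 := by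
    obtain ⟨f, hf⟩ := Module.exists_dual_forall_apply_ne_zero (K := ℚ)
      (fun v : ↥((A ∪ ((A ×ˢ A).image (fun p => p.1 - p.2) ∪
      (A ×ˢ A).image (fun p => p.1 + p.2))).filter (fun v => v ≠ 0)) => (v : ℝ))
      (fun v => (mem_filter.1 v.2).2)
    exact ⟨f, fun v hv => hf ⟨v, hv⟩⟩
  have hf0 : ∀ a ∈ A, f a ≠ 0 := fun a ha => hf a (mem_filter.2
    ⟨mem_union_left _ ha, fun h => h0 (h ▸ ha)⟩)
  have hfs : ∀ a ∈ A, ∀ b ∈ A, a ≠ b → f a ≠ f b := by
    intro a ha b hb hab h
    refine hf (a - b) (mem_filter.2 ⟨mem_union_right _ (mem_union_left _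
      (mem_image.2 ⟨(a, b), mem_product.2 ⟨ha, hb⟩, rfl⟩)), sub_ne_zero.2 hab⟩) ?_
    rw [map_sub, h, sub_self]
  have hfn : ∀ a ∈ A, ∀ b ∈ A, f a ≠ - f b := by
    intro a ha b hb h
    refine hf (a + b) (mem_filter.2 ⟨mem_union_right _ (mem_union_right _
      (mem_image.2 ⟨(a, b), mem_product.2 ⟨ha, hb⟩, rfl⟩)), fun h' => ?_⟩) ?_
    · exact hneg b hb ((eq_neg_of_add_eq_zero_left h') ▸ ha)
    · rw [map_add, h, neg_add_cancel]
  -- common denominator
  obtain ⟨⟨N, hN⟩, hNA⟩ := IsLocalization.exist_integer_multiples_of_finset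
    (nonZeroDivisors ℤ) (A.image (fun a => f a) : Finset ℚ)
  have hN0 : (N : ℚ) ≠ 0 := by
    have := nonZeroDivisors.ne_zero hN
    exact_mod_cast this
  have hint : ∀ a ∈ A, ∃ z : ℤ, (z : ℚ) = N * f a := by
    intro a ha
    obtain ⟨z, hz⟩ := hNA (f a) (mem_image_of_mem _ ha)
    refine ⟨z, ?_⟩
    have h1 : (algebraMap ℤ ℚ) z = (z : ℚ) := rfl
    rw [← h1, hz]
    rw [zsmul_eq_mul]
  choose! g hg using hint
  have hginj : Set.InjOn g (A : Set ℝ) := by
    intro a ha b hb hab
    by_contra hne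
    have h1 := hg a ha
    have h2 := hg b hb
    rw [hab, h2] at h1
    exact hfs b hb a ha (Ne.symm hne) (mul_left_cancel₀ hN0 h1)
  obtain ⟨B', hB', hB'c, hB'n⟩ := int_case _ s (A.image g) le_rfl (by
    intro h
    obtain ⟨a, ha, hga⟩ := mem_image.1 h
    have h1 := hg a ha
    rw [hga, Int.cast_zero] at h1
    rcases mul_eq_zero.1 h1.symm with h | h
    · exact hN0 h
    · exact hf0 a ha h) (by
    intro y hy hy'
    obtain ⟨a, ha, rfl⟩ := mem_image.1 hy
    obtain ⟨b, hb, hab⟩ := mem_image.1 hy'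
    have h1 := hg a ha
    have h2 := hg b hb
    rw [hab, Int.cast_neg, h1] at h2
    apply hfn b hb a ha
    apply mul_left_cancel₀ hN0
    rw [← h2]; ring) (by
    rw [Finset.card_image_of_injOn hginj]; exact hc)
  obtain ⟨B, hBA, rfl⟩ := Finset.subset_image_iff.1 hB'
  have hgB : Set.InjOn g (B : Set ℝ) := hginj.mono (by exact_mod_cast hBA)
  refine ⟨B, by exact_mod_cast hBA, by rw [← hB'c, Finset.card_image_of_injOn hgB], ?_⟩
  intro t ht u hu htu
  have ht' : t ⊆ B := by exact_mod_cast ht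
  have hu' : u ⊆ B := by exact_mod_cast hu
  have hBA' : B ⊆ A := by exact_mod_cast hBA
  set ε : ℤ → ℤ := fun y => (if y ∈ t.image g then 1 else 0) - (if y ∈ u.image g then 1 else 0)
    with hεd
  have hε : Sg ε := by
    intro y
    simp only [hεd]
    split_ifs <;> norm_num
  have hmt : ∀ b ∈ B, (g b ∈ t.image g ↔ b ∈ t) := by
    intro b hb
    constructor
    · intro h
      obtain ⟨c, hc, hcb⟩ := mem_image.1 h
      rw [← hgB (ht' hc) hb hcb]; exact hc
    · exact fun h => mem_image_of_mem _ h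
  have hmu : ∀ b ∈ B, (g b ∈ u.image g ↔ b ∈ u) := by
    intro b hb
    constructor
    · intro h
      obtain ⟨c, hc, hcb⟩ := mem_image.1 h
      rw [← hgB (hu' hc) hb hcb]; exact hc
    · exact fun h => mem_image_of_mem _ h
  have hsum : ∑ y ∈ B.image g, ε y * y = 0 := by
    rw [Finset.sum_image hgB]
    have h1 : ∑ b ∈ B, ε (g b) * g b = ∑ b ∈ t, g b - ∑ b ∈ u, g b := by
      have e1 : ∀ b ∈ B, ε (g b) * g b = (if b ∈ t then g b else 0) - (if b ∈ u then g b else 0) := by
        intro b hb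
        simp only [hεd]
        rw [if_congr (hmt b hb) rfl rfl, if_congr (hmu b hb) rfl rfl]
        split_ifs <;> ring
      rw [Finset.sum_congr rfl e1, Finset.sum_sub_distrib, ← Finset.sum_filter,
        ← Finset.sum_filter]
      congr 2
      · ext b
        rw [mem_filter]
        exact ⟨fun h => h.2, fun h => ⟨ht' h, h⟩⟩
      · ext b
        rw [mem_filter]
        exact ⟨fun h => h.2, fun h => ⟨hu' h, h⟩⟩
    rw [h1, sub_eq_zero]
    have h2 : ∀ w : Finset ℝ, w ⊆ B → ((∑ b ∈ w, g b : ℤ) : ℚ) = N * f (∑ b ∈ w, b) := by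
      intro w hw
      rw [Int.cast_sum, map_sum, Finset.mul_sum]
      exact Finset.sum_congr rfl fun b hb => hg b (hBA' (hw hb))
    have h3 : ((∑ b ∈ t, g b : ℤ) : ℚ) = ((∑ b ∈ u, g b : ℤ) : ℚ) := by
      rw [h2 t ht', h2 u hu']
      have : ∑ b ∈ t, b = ∑ b ∈ u, b := htu
      rw [this]
    exact_mod_cast h3
  have h0' := hB'n ε hε hsum
  ext b
  by_cases hb : b ∈ B
  · have h1 := h0' (g b) (mem_image_of_mem _ hb)
    simp only [hεd] at h1
    rw [if_congr (hmt b hb) rfl rfl, if_congr (hmu b hb) rfl rfl] at h1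
    split_ifs at h1 with h2 h3 h3
    · exact ⟨fun _ => h3, fun _ => h2⟩
    · norm_num at h1
    · norm_num at h1
    · exact ⟨fun h => absurd h h2, fun h => absurd h h3⟩
  · exact ⟨fun h => absurd (ht' h) hb, fun h => absurd (hu' h) hb⟩

/-- every finite set of reals has a dissociated subset of size `s` with `|A| <= s 2^s + 1` -/
theorem main (A : Finset ℝ) :
    ∃ B ⊆ A, AddDissociated (B : Set ℝ) ∧ A.card ≤ B.card * 2 ^ B.card + 1 := by
  classical
  -- choose a dissociated subset of maximal size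
  set D : Finset (Finset ℝ) := A.powerset.filter (fun B : Finset ℝ => AddDissociated (B : Set ℝ)) with hD
  have hDne : D.Nonempty := ⟨∅, by
    rw [hD, mem_filter]
    exact ⟨empty_mem_powerset _, by simp⟩⟩
  obtain ⟨B, hB, hmax⟩ := Finset.exists_max_image D Finset.card hDne
  have hB1 := mem_filter.1 hB
  refine ⟨B, mem_powerset.1 hB1.1, hB1.2, ?_⟩
  by_contra hcon
  push Not at hcon
  set s := B.card with hs
  set Ap := A.filter (fun x => 0 < x) with hAp
  set An := A.filter (fun x => x < 0) with hAn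
  have hcard : A.card ≤ Ap.card + An.card + 1 := by
    have h1 : A ⊆ (Ap ∪ An) ∪ {0} := by
      intro x hx
      rw [mem_union, mem_union, mem_singleton, hAp, hAn, mem_filter, mem_filter]
      rcases lt_trichotomy x 0 with h | h | h
      · exact Or.inl (Or.inr ⟨hx, h⟩)
      · exact Or.inr h
      · exact Or.inl (Or.inl ⟨hx, h⟩)
    refine (card_le_card h1).trans ((card_union_le _ _).trans ?_)
    rw [card_singleton]
    exact Nat.add_le_add_right (card_union_le _ _) 1
  have key : ∀ A' ⊆ A, (0 : ℝ) ∉ A' → (∀ x ∈ A', -x ∉ A') → ¬ s * 2 ^ s < 2 * A'.card := by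
    intro A' hA' h0 hneg hc
    obtain ⟨B', hB', hB'c, hB'd⟩ := real_case A' s h0 hneg hc
    have := hmax B' (mem_filter.2 ⟨mem_powerset.2 (hB'.trans hA'), hB'd⟩)
    omega
  have k1 := key Ap (filter_subset _ _) (fun h => lt_irrefl _ (mem_filter.1 h).2)
    (fun x hx hx' => by
      have h1 := (mem_filter.1 hx).2
      have h2 := (mem_filter.1 hx').2
      linarith)
  have k2 := key An (filter_subset _ _) (fun h => lt_irrefl _ (mem_filter.1 h).2)
    (fun x hx hx' => by
      have h1 := (mem_filter.1 hx).2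
      have h2 := (mem_filter.1 hx').2
      linarith)
  omega


theorem log_bound {n s : ℕ} (hn : 2 ≤ n) (h : n ≤ s * 2 ^ s + 1) :
    Real.logb 2 n - Real.logb 2 (Real.logb 2 n) ≤ s := by
  have hs : s ≠ 0 := by
    rintro rfl
    omega
  have hs1 : (1 : ℝ) ≤ s := by exact_mod_cast Nat.one_le_iff_ne_zero.2 hs
  rcases Nat.lt_or_ge n 4 with h4 | h4
  · -- n = 2 or n = 3
    refine le_trans ?_ hs1
    interval_cases n
    · have : Real.logb 2 ((2 : ℕ) : ℝ) = 1 := by
        push_cast
        exact Real.logb_self_eq_one (by norm_num)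
      rw [this, Real.logb_one]
      norm_num
    · have h1 : (3 / 2 : ℝ) ≤ Real.logb 2 ((3 : ℕ) : ℝ) := by
        rw [Real.le_logb_iff_rpow_le (by norm_num) (by norm_num)]
        have e1 : ((2 : ℝ) ^ (3 / 2 : ℝ)) ^ (2 : ℕ) = 8 := by
          rw [← Real.rpow_natCast, ← Real.rpow_mul (by norm_num)]
          norm_num
        have e2 : (0 : ℝ) ≤ (2 : ℝ) ^ (3 / 2 : ℝ) := by positivity
        push_cast
        nlinarith
      have h2 : Real.logb 2 ((3 : ℕ) : ℝ) - Real.logb 2 (3 / 2) = 1 := by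
        rw [← Real.logb_div (by norm_num) (by norm_num)]
        push_cast
        have : (3 : ℝ) / (3 / 2) = 2 := by norm_num
        rw [this]
        exact Real.logb_self_eq_one (by norm_num)
      have h3 : Real.logb 2 (3 / 2) ≤ Real.logb 2 (Real.logb 2 ((3 : ℕ) : ℝ)) :=
        Real.logb_le_logb_of_le (by norm_num) (by norm_num) h1
      calc Real.logb 2 ((3 : ℕ) : ℝ) - Real.logb 2 (Real.logb 2 ((3 : ℕ) : ℝ))
          ≤ Real.logb 2 ((3 : ℕ) : ℝ) - Real.logb 2 (3 / 2) := sub_le_sub_left h3 _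
        _ = 1 := h2
  · by_contra hcon
    push Not at hcon
    set y := Real.logb 2 n with hy
    have hn0 : (0 : ℝ) < n := by exact_mod_cast (by omega : 0 < n)
    have hy2 : 2 ≤ y := by
      rw [hy, Real.le_logb_iff_rpow_le (by norm_num) hn0]
      have : (4 : ℝ) ≤ n := by exact_mod_cast h4
      norm_num
      linarith
    have hly : 1 ≤ Real.logb 2 y := by
      rw [Real.le_logb_iff_rpow_le (by norm_num) (by linarith)]
      simpa using hy2
    have h2y : (2 : ℝ) ^ y = n := Real.rpow_logb (by norm_num) (by norm_num) hn0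
    have h2l : (2 : ℝ) ^ (Real.logb 2 y) = y :=
      Real.rpow_logb (by norm_num) (by norm_num) (by linarith)
    have h5 : (2 : ℝ) ^ (s : ℝ) ≤ n / y := by
      calc (2 : ℝ) ^ (s : ℝ) ≤ (2 : ℝ) ^ (y - Real.logb 2 y) :=
            Real.rpow_le_rpow_of_exponent_le (by norm_num) hcon.le
        _ = n / y := by rw [Real.rpow_sub (by norm_num), h2y, h2l]
    rw [Real.rpow_natCast] at h5
    have h6 : (s : ℝ) ≤ y - 1 := by linarith
    have h7 : (n : ℝ) ≤ s * 2 ^ s + 1 := by exact_mod_cast h
    have hny : (0 : ℝ) < n / y := div_pos hn0 (by linarith)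
    have h8 : (s : ℝ) * 2 ^ s ≤ (y - 1) * (n / y) :=
      mul_le_mul h6 h5 (by positivity) (by linarith)
    have h9 : (y - 1) * (n / y) = n - n / y := by
      field_simp
    have h10 : y < n := by
      rw [← h2y]
      have h11 : y < (2 : ℝ) ^ y := by
        have h12 : (y : ℝ) < ⌊y⌋₊ + 1 := Nat.lt_floor_add_one y
        have h13 : ⌊y⌋₊ + 1 ≤ 2 ^ ⌊y⌋₊ := Nat.succ_le_of_lt (Nat.lt_two_pow_self)
        have h14 : (2 : ℝ) ^ (⌊y⌋₊ : ℝ) ≤ 2 ^ y :=
          Real.rpow_le_rpow_of_exponent_le (by norm_num) (Nat.floor_le (by linarith))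
        rw [Real.rpow_natCast] at h14
        have h15 : ((⌊y⌋₊ : ℝ) + 1) ≤ 2 ^ ⌊y⌋₊ := by exact_mod_cast h13
        linarith
      exact h11
    have h16 : 1 < (n : ℝ) / y := by
      rw [one_lt_div (by linarith)]
      exact h10
    rw [h9] at h8
    linarith

/-- Every finite set `A` of reals has a dissociated subset `B` with
`|A| <= |B| * 2 ^ |B| + 1`, hence `|B| >= log |A| - log log |A|` (logarithms to base two). -/
theorem result (A : Finset ℝ) :
    ∃ B ⊆ A, AddDissociated (B : Set ℝ) ∧ A.card ≤ B.card * 2 ^ B.card + 1 ∧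
      (2 ≤ A.card →
        Real.logb 2 A.card - Real.logb 2 (Real.logb 2 A.card) ≤ B.card) := by
  obtain ⟨B, hB, hd, hc⟩ := main A
  exact ⟨B, hB, hd, hc, fun h => log_bound h hc⟩

end Pool.Agent.Results.MP_2d6ea7_co.LogLogBound
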